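import Pool.Agent.U442.Htj.Main

/-!
# Tate classes on the products of 100% of the hyperelliptic Jacobians with all varieties generated by
# a given one, over all finitely generated fields of characteristic different from two

Let `R` be any integrally closed domain which is finitely generated over `ℤ`, is not a field, and in
which `2 ≠ 0` (for instance `ℤ`, `ℤ[x]`, rings of integers, `𝔽_q[x]` with `q` odd), and let `k` be its
fraction field: each infinite field `k` which is finitely generated over its prime field, of any
characteristic different from two, is such a fraction field. Let `n i ≥ 7`, `i` in a finite nonempty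
set, be odd numbers. We consider the tuples `f` of monic polynomials `f i` over `R` of degrees `n i`;
`J i` is the Jacobian of the curve `y ^ 2 = f i (x)`, of dimension `(n i - 1) / 2`. The group
`J i (F)`, for an algebraically closed field `F`, is the class group of the ring `F[x, y]` of the
affine curve (the curve has one point at infinity), and `V_2 (J i)` is its rational 2-adic Tate module.

Let `L` be a finitely generated extension of `k` (or any extension such that the separable algebraic
elements of `L` over `k` form a finite extension), `Γ` the absolute Galois group of `L`, and `Z` any smooth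
projective variety over `L`, or any other object with a 2-adic representation `τ` of `Γ` on a finite
dimensional space `W` and a stable lattice, for instance the total cohomology of `Z`; only the
matrices `t s`, over the 2-adic integers, of the elements `s` of `Γ` are used.

`Generated τ M`: the representation `M` is in the tensor category generated by `τ` and the Tate
twists: it is obtained from `τ` and characters with values in `ℤ_2ˣ` by tensor products, direct sums,
duals, subrepresentations and quotients. These are the cohomology groups of all powers `Z ^ b` and their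
subquotients.

`AllSplit`: the `f i` are separable, and there are Weil pairings on the `V_2 (J i)` such that for ALL
generated `M` at once and all powers `A ^ a` of the product `A` of the `J i`, the Tate classes on `A ^ a` with values
in `M` are zero in odd degrees, and in even degrees they are linear combinations of the products of divisor classes
`ω i (x a) (y b) + ω i (x b) (y a)` on `A ^ a` with Tate classes of `M` (`Splits`). So all Tate
classes on all varieties `J 1 ^ m 1 × ... × J r ^ m r × Z ^ b` come from divisor classes of
the `J i ^ 2` and from Tate classes of the powers `Z ^ b`: for `ℓ = 2` the Tate conjecture for all these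
varieties, with fixed `f` and all `m 1, ..., m r, b` and in all codimensions, is EQUIVALENT to the
Tate conjecture for all the powers of `Z` (the definitions and the theorem contain only the Tate classes).

**Theorem.** (1) (100% for each `Z`.) `AllSplit` is true for 100% of the tuples `f`: the proportion
tends to one in all sequences of finite sets of tuples which are equidistributed modulo all ideals with finite
quotient, for instance boxes.

(2) (Congruences.) For each `η > 0` there is an ideal `I` with finite quotient such that for a proportion of at least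
`1 - η` of the residue classes modulo `I` of tuples, `AllSplit` is true for ALL tuples in the class.

(3) (One exceptional set for all `L` and `Z`.) For equidistributed sets of tuples as in (1) there are finite sets `V 0`,
`V 1`, ... of elements of `kˣ` such that each element of `kˣ` is in `V t` for all large `t`, and the
proportion of the tuples in `B t` which are good for `V t` tends to one; here `f` is good for `U` if
`AllSplit` is true for ALL extensions `L` of `k` such that

(`Allowed`) the separable elements of `L` have solvable Galois groups over `k`, or they lie in a normal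
extension of `k` over which none of the `f i` splits into linear factors, or in which only the
elements of `U`, up to squares, become squares,

and for ALL `Z` over `L` with matrices `t` such that

(`Tame`) the Galois group of the extension `L'` of `L` defined by the action modulo 2 is solvable, or each
square root of an element `c` of `kˣ` which is in `L'` is the square root of an element of `U`, up to
factors in `k`.

There is no hypothesis on Galois groups, on the reduction of the curves, on semisimplicity or on `Z`.

What is new. In the starting library the density theorem is proved for one representation `τ` at a time,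
whose rank and lattice enter. Here all the (infinitely many, of unbounded rank) representations
in the tensor category generated by `Z` are treated at once, with one set of polynomials: the good
tuples depend only on the field cut out by the action on `H (Z, ℤ_2)` modulo 2. The new part
(`Pool.Agent.U442.Htj`) shows that each representation in the tensor category has a stable lattice
on which all elements trivial modulo 2 for `t` are trivial modulo 2. The density theorem and the theorem on Tate
classes come from the folders `N197.Htj` and `N171` of the starting library.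
-/

set_option autoImplicit false

namespace Pool.Agent.Results.MP_0fca13_ag.AlmostAllHyperelliptic

open Polynomial Filter Topology
open Pool.Agent.N171 (HypP JacP JPi pullP Vt vRep cycQ IsWeil)
open Pool.Agent.N197.Htj (Splits)
open Pool.Agent.U442.Htj (Generated)
open scoped Classical

/-- The representation `τ` on `W` has the matrices `t s`, over the 2-adic integers, in some basis. -/
def HasMatrices {G W : Type} [Group G] [AddCommGroup W] [Module ℚ_[2] W] {d : ℕ}
    (τ : Representation ℚ_[2] G W) (t : G →* Matrix (Fin d) (Fin d) ℤ_[2]) : Prop :=
  ∃ b : Module.Basis (Fin d) ℚ_[2] W, ∀ s, LinearMap.toMatrix b b (τ s) =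
    (t s).map (algebraMap ℤ_[2] ℚ_[2])

/-- The matrix of `s` is congruent to one modulo two. -/
def TrivialModTwo {G : Type} [Group G] {d : ℕ} (t : G →* Matrix (Fin d) (Fin d) ℤ_[2]) (s : G) :
    Prop :=
  (t s).map (PadicInt.toZMod (p := 2)) = 1

/-- The tuple of the monic polynomials with the coefficients `y`: the polynomial `i` is
`X ^ n i + ∑ j < n i, y (i, j) X ^ j`. -/
noncomputable def poly {R : Type} [CommRing R] (k : Type) [Field k] [Algebra R k] {ι : Type}
    {n : ι → ℕ} (y : (Σ i, Fin (n i)) → R) (i : ι) : k[X] :=
  X ^ n i + ∑ j : Fin (n i), C (algebraMap R k (y ⟨i, j⟩)) * X ^ (j : ℕ)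

/-- Over `L`, the polynomials `f i` define hyperelliptic Jacobians, and the Tate classes on all the
powers of their product, with values in all representations generated by `τ`, are linear combinations of
products of divisor classes and Tate classes of the representation. -/
def AllSplit {k : Type} [Field k] (L F : Type) [Field L] [Field F] [Algebra k L] [Algebra L F]
    {ι : Type} (f : ι → k[X]) {W : Type} [AddCommGroup W] [Module ℚ_[2] W]
    (τ : Representation ℚ_[2] (F ≃ₐ[L] F) W) : Prop :=
  ∃ (_ : ∀ i, HypP ((f i).map (algebraMap k L)))
    (ω : ∀ i, Vt (JacP ((f i).map (algebraMap k L)) F) →ₗ[ℚ_[2]]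
      Vt (JacP ((f i).map (algebraMap k L)) F) →ₗ[ℚ_[2]] ℚ_[2]),
    (∀ i, IsWeil (vRep (JacP ((f i).map (algebraMap k L)) F) (F ≃ₐ[L] F)) (cycQ L F) (ω i)) ∧
    ∀ (M : Type) [AddCommGroup M] [Module ℚ_[2] M] (ν : Representation ℚ_[2] (F ≃ₐ[L] F) M),
      Generated τ M ν →
      Splits (vRep (JPi (fun i => (f i).map (algebraMap k L)) F) (F ≃ₐ[L] F))
        (cycQ L F) (fun i => pullP (fun i => (f i).map (algebraMap k L)) F i (ω i)) ν

/-- The separable elements of `L` have solvable Galois groups over `k`, or lie in a normal extension over
which none of the polynomials `f i` splits, or in which the only elements of `k` which become squares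
are those of `U`, up to squares. -/
def Allowed {k : Type} (L F : Type) [Field k] [Field L] [Field F] [Algebra k L] [Algebra L F]
    [Algebra k F] (U : Finset kˣ) {ι : Type} (f : ι → k[X]) : Prop :=
  (∀ x : L, IsSeparable k x → Group.IsSolvable (minpoly k x).Gal) ∨
  ∃ M : IntermediateField k F, Normal k M ∧ (∀ x : L, IsSeparable k x → algebraMap L F x ∈ M) ∧
    ((∀ i, ¬ ((f i).map (algebraMap k M)).Splits) ∨
      ∀ c : kˣ, (∃ δ ∈ M, δ ^ 2 = algebraMap k F c) → ∃ u ∈ U, IsSquare (c * u))

/-- The image of the Galois group modulo two is solvable, or the elements of `k` which become squares in the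
extension defined by the action modulo 2 are in `U`, up to squares. -/
def Tame {k L F : Type} [Field k] [Field L] [Field F] [Algebra L F] [Algebra k F]
    (U : Finset kˣ) {d : ℕ} (t : (F ≃ₐ[L] F) →* Matrix (Fin d) (Fin d) ℤ_[2]) : Prop :=
  (∃ m : ℕ, ∀ s ∈ derivedSeries (F ≃ₐ[L] F) m, TrivialModTwo t s) ∨
    ∀ c : kˣ, (∀ δ : F, δ ^ 2 = algebraMap k F c → ∀ s, TrivialModTwo t s → s δ = δ) →
      ∃ u ∈ U, IsSquare (c * u)

/-- The good tuples of polynomials. -/
def Good {k : Type} [Field k] {ι : Type} (U : Finset kˣ) (f : ι → k[X]) : Prop :=
  ∀ (L F : Type) [Field L] [Field F] [Algebra k L] [Algebra L F] [Algebra k F]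
    [IsScalarTower k L F] [IsAlgClosure L F], Allowed L F U f →
    ∀ (W : Type) [AddCommGroup W] [Module ℚ_[2] W] (τ : Representation ℚ_[2] (F ≃ₐ[L] F) W)
      (d : ℕ) (t : (F ≃ₐ[L] F) →* Matrix (Fin d) (Fin d) ℤ_[2]), HasMatrices τ t →
      Tame U t → AllSplit L F f τ

/-- The tuple `y` is in the residue class `z`. -/
def InClass {R σ : Type} [CommRing R] {I : Ideal R} (y : σ → R) (z : σ → R ⧸ I) : Prop :=
  ∀ j, Ideal.Quotient.mk I (y j) = z j

/-- A sequence of nonempty finite sets of tuples which is equidistributed modulo each ideal with finite
quotient. -/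
def Equidistributed {R σ : Type} [CommRing R] [Fintype σ] (B : ℕ → Finset (σ → R)) : Prop :=
  (∀ t, (B t).Nonempty) ∧ ∀ I : Ideal R, Finite (R ⧸ I) → ∀ z : σ → R ⧸ I,
    Tendsto (fun t => (((B t).filter (fun y => InClass y z)).card : ℝ) / ((B t).card : ℝ)) atTop
      (𝓝 (1 / (Nat.card (R ⧸ I) : ℝ) ^ Fintype.card σ))

/-- The proportion of the tuples `y` in `B t` with the property `P t y` tends to one. -/
def AlmostAll {R σ : Type} (B : ℕ → Finset (σ → R)) (P : ℕ → (σ → R) → Prop) : Prop :=
  Tendsto (fun t => (((B t).filter (P t)).card : ℝ) / ((B t).card : ℝ)) atTop (𝓝 1)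

theorem almostAll_mono {R σ : Type} {B : ℕ → Finset (σ → R)} (hB : ∀ t, (B t).Nonempty)
    {P Q : ℕ → (σ → R) → Prop} (h : ∀ t y, P t y → Q t y) (hP : AlmostAll B P) : AlmostAll B Q := by
  refine tendsto_of_tendsto_of_tendsto_of_le_of_le hP tendsto_const_nhds (fun t => ?_) (fun t => ?_)
  · have h0 : (0 : ℝ) < ((B t).card : ℝ) := by exact_mod_cast (hB t).card_pos
    apply div_le_div_of_nonneg_right _ h0.le
    refine Nat.cast_le.2 (Finset.card_le_card fun y hy => ?_)
    rw [Finset.mem_filter] at hy ⊢
    exact ⟨hy.1, h t y hy.2⟩
  · have h0 : (0 : ℝ) < ((B t).card : ℝ) := by exact_mod_cast (hB t).card_pos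
    show _ / _ ≤ (1 : ℝ)
    rw [div_le_one h0]
    exact_mod_cast Finset.card_filter_le _ _

/-- **Tate classes on the products of 100% of the hyperelliptic Jacobians with all powers of any
variety, over all finitely generated infinite fields of characteristic different from two.** -/
theorem result {R k : Type} [CommRing R] [IsDomain R] [IsIntegrallyClosed R] [Algebra.FiniteType ℤ R]
    [Field k] [Algebra R k] [IsFractionRing R k] (hR : ¬ IsField R) (h2 : (2 : R) ≠ 0)
    {ι : Type} [Fintype ι] [Nonempty ι] (n : ι → ℕ) (h7 : ∀ i, 7 ≤ n i) (ho : ∀ i, Odd (n i)) :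
    (∀ (L F : Type) [Field L] [Field F] [Algebra k L] [Algebra L F] [Algebra k F]
      [IsScalarTower k L F] [IsAlgClosure L F] [FiniteDimensional k (separableClosure k L)]
      (W : Type) [AddCommGroup W] [Module ℚ_[2] W] (τ : Representation ℚ_[2] (F ≃ₐ[L] F) W)
      (d : ℕ) (t : (F ≃ₐ[L] F) →* Matrix (Fin d) (Fin d) ℤ_[2]), HasMatrices τ t →
      (∀ B : ℕ → Finset ((Σ i, Fin (n i)) → R), Equidistributed B →
        AlmostAll B fun _ y => AllSplit L F (poly k y) τ) ∧
      ∀ η : ℝ, 0 < η → ∃ I : Ideal R, Finite (R ⧸ I) ∧
        (1 - η) * (Nat.card ((Σ i, Fin (n i)) → R ⧸ I) : ℝ) ≤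
          (Nat.card {z : (Σ i, Fin (n i)) → R ⧸ I //
            ∀ y : (Σ i, Fin (n i)) → R, InClass y z → AllSplit L F (poly k y) τ} : ℝ)) ∧
    ∀ B : ℕ → Finset ((Σ i, Fin (n i)) → R), Equidistributed B →
      ∃ V : ℕ → Finset kˣ, (∀ u : kˣ, ∀ᶠ t in atTop, u ∈ V t) ∧
        AlmostAll B fun t y => Good (V t) (poly k y) := by
  have h2k : (2 : k) ≠ 0 := by
    rw [← map_ofNat (algebraMap R k) 2]
    exact (map_ne_zero_iff _ (IsFractionRing.injective R k)).2 h2
  refine ⟨fun L F _ _ _ _ _ _ _ _ W _ _ τ d t hτ => ?_, fun B hB => ?_⟩
  · obtain ⟨U, hU1, hU2⟩ := Pool.Agent.U442.Htj.exists_UT (k := k) (L := L) (F := F) h2k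
      (ι := ι) t
    have hgood : ∀ y : (Σ i, Fin (n i)) → R,
        Pool.Agent.N197.Htj.Good.{0} n U (Pool.Agent.N197.Htj.poly k y) →
        AllSplit L F (poly k y) τ := fun y hy =>
      Pool.Agent.U442.Htj.allSplit_of_good hy (hU1 _) hU2 hτ
    have hdens : ∀ η : ℝ, 0 < η → ∃ M : Ideal R, Finite (R ⧸ M) ∧
        (1 - η) * (Nat.card (R ⧸ M) : ℝ) ^ (Fintype.card (Σ i, Fin (n i))) ≤
        (({x : (Σ i, Fin (n i)) → R ⧸ M | ∀ y : (Σ i, Fin (n i)) → R,
          (∀ j, Ideal.Quotient.mk M (y j) = x j) →
            Pool.Agent.N197.Htj.Good.{0} n U (Pool.Agent.N197.Htj.poly k y)}).ncard : ℝ) :=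
      fun η hη => Pool.Agent.N197.Htj.dens_good R k n hR h2 h7 ho U η hη
    refine ⟨fun B hB => ?_, fun η hη => ?_⟩
    · have h1 := Pool.Agent.X243.Gen.tendsto_of_dens
        {y | Pool.Agent.N197.Htj.Good.{0} n U (Pool.Agent.N197.Htj.poly k y)} hdens B hB.1
        (fun M hM x => by
          have h3 := hB.2 M hM x
          unfold InClass at h3
          convert h3)
      have h3 : AlmostAll B (fun _ y =>
          Pool.Agent.N197.Htj.Good.{0} n U (Pool.Agent.N197.Htj.poly k y)) := by
        unfold AlmostAll
        convert h1
        exact Iff.rfl
      exact almostAll_mono hB.1 (fun _ y hy => hgood y hy) h3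
    · obtain ⟨I, hI, h⟩ := hdens η hη
      refine ⟨I, hI, ?_⟩
      have := hI
      have := Fintype.ofFinite (R ⧸ I)
      have h1 : Nat.card ((Σ i, Fin (n i)) → R ⧸ I) =
          Nat.card (R ⧸ I) ^ Fintype.card (Σ i, Fin (n i)) := by
        rw [Nat.card_eq_fintype_card, Nat.card_eq_fintype_card, Fintype.card_fun]
      rw [h1, Nat.cast_pow]
      refine h.trans ?_
      rw [← Nat.card_coe_set_eq]
      refine Nat.cast_le.2 ?_
      exact Nat.card_mono (Set.toFinite {z : (Σ i, Fin (n i)) → R ⧸ I |
          ∀ y : (Σ i, Fin (n i)) → R, InClass y z → AllSplit L F (poly k y) τ})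
        fun z hz y hy => hgood y (hz y hy)
  · obtain ⟨V, hV, h⟩ := Pool.Agent.N197.Htj.lim_good.{0} R k n hR h2 h7 ho B hB.1
      (fun M hM x => by
        have h3 := hB.2 M hM x
        unfold InClass at h3
        convert h3)
    refine ⟨V, hV, ?_⟩
    have h3 : AlmostAll B (fun t y =>
        Pool.Agent.N197.Htj.Good.{0} n (V t) (Pool.Agent.N197.Htj.poly k y)) := by
      unfold AlmostAll
      convert h
    refine almostAll_mono hB.1 (fun t y hy => ?_) h3
    intro L F _ _ _ _ _ _ _ hA W _ _ τ d t hτ ht
    exact Pool.Agent.U442.Htj.allSplit_of_good hy hA ht hτ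

end Pool.Agent.Results.MP_0fca13_ag.AlmostAllHyperelliptic
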