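import Pool.Agent.U190.AP.TBridge

/-!
# The Tate conjecture for varieties generated by products of varieties with irreducible cohomology

The question Q1 consists of three assertions on a variety `V` over a finitely generated field `k` and a
codimension `p`: the group `A^p(V)` of classes of cycles is finitely generated, the map
`A^p(V) ⊗ ℚ_ℓ → H^(2p)(V)(p)` is injective, and its image is the space of the Tate classes. Here the
first two are proved, in any characteristic, for a large class of varieties, and the third is reduced
to products.

Let `W` be a Weil cohomology theory with any coefficient field `K` of characteristic zero, on a class of
smooth proper varieties over (the algebraic closure of) a field of any characteristic, closed under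
products, and `Γ` a topological group which acts on `W` by symmetries (automorphisms of all the graded
algebras `H(X)`, compatible with the projections of products and the spaces of algebraic classes) with a
character `κ` which describes the action on the orientations, and such that every algebraic class of
codimension `p` is multiplied by `κ(g) ^ p` for `g` in an open subgroup; the example is `ℓ`-adic
cohomology with the Galois group of `k` and the inverse of the cyclotomic character.

Let `P` be a set of varieties, each of which is of one of the following types.

* Graded type: `H(X)` is the sum of a space `A₀` spanned by algebraic classes and of its orthogonal
  complement `Q`; either `Q` is contained in the middle degree, or the Künneth projectors of `X` are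
  combinations of algebraic correspondences; and for each degree `i` some correspondence `θ` (the
  identity for `i = dim X`, a power of a divisor class for `i < dim X`) defines a non-degenerate form
  `tr (x θ(y))` on `Q ∩ H^i(X)` which is good.
* Abelian type: the cohomology is that of an abelian variety with an addition and a divisor `D`,
  generated by `H^1`, with hard Lefschetz for `D`, and `H^1` is good for the form
  `tr (x D ^ (dim X - 1) y)`.

A form on a space `P` (a part of the cohomology of `X`) is called good if

* `P` has no non-zero subspace which is stable under `Γ` and the algebraic correspondences of degree
  zero and pairs trivially with its images under all correspondences (for example `P` is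
  irreducible); or
* `P` is spanned by vanishing cycles: any two are conjugate up to sign under `Γ`, and for each of
  them some element of `Γ` acts on `P` by the formula of Picard and Lefschetz; or
* some `σ` in `Γ`, a similitude with multiplier `q`, acts semisimply on `P`, and each eigenvalue `α` is
  conjugate over `K` to `q / α`; and the eigenvalues are simple, or all operators on `P` which commute
  with `σ` are combinations of algebraic correspondences (for the Frobenius endomorphism and `H^1` of
  an abelian variety this is the theorem of Tate).

Let `𝒴` be any set of varieties with Künneth projectors given by combinations of cycles, for the
products of which homological and numerical equivalence coincide, for instance the empty set, and `R`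
the set of all products, with arbitrary repetitions, of members of `P` and `𝒴`. There is no condition on
the products or on relations between different members.

**Theorem.** Let `V` be a variety of dimension `n` and `p ≤ n` such that `H^(2p)(V)` and
`H^(2n - 2p)(V)` are spanned by the images of algebraic correspondences from members of `R` (if hard
Lefschetz holds for some divisor on `V` it is enough to know this for the smaller of the two degrees).

1. `A^p(V)` is finitely generated: if `B` and `B'` are groups of cycles of codimensions `p` and `n - p`
   with integral intersection numbers, `B'` spanning the cycles of codimension `n - p` over `ℚ`, then
   the group of the classes of the elements of `B` is finitely generated.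
2. `A^p(V) ⊗ K → H^(2p)(V)` is injective: classes of cycles linearly independent over `ℚ` are
   linearly independent over `K`.
3. The Tate classes (over all finite extensions) are combinations of algebraic classes for all such `V`
   and `p` if and only if they are for all members of `R`.

Examples for the members of `P`. (1) The geometric generic fibre of a Lefschetz pencil of hypersurface
sections of a variety with algebraic cohomology (projective spaces, Grassmannians, quadrics), over any
algebraically closed field of characteristic different from two: the vanishing cycles are conjugate and
the formula of Picard and Lefschetz holds (Deligne), for the Galois group of the function field of the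
line. So `X` may be the generic hypersurface of any degree and dimension. (2) Over a finite field with
`q` elements: all abelian varieties (Tate), K3 surfaces (the theorem of Ito, Ito and Koshikawa for the
square), and all surfaces with simple Frobenius eigenvalues on `H^1` and on the transcendental part of
`H^2`. The condition on the eigenvalues is that `α` and `q ^ i / α`, the complex conjugate of `α`, are
conjugate over `ℚ_ℓ`; for finitely many varieties it holds for a set of primes `ℓ` of positive density,
as in the theorem of Clozel for abelian varieties.

Examples for `V`: all products, all varieties dominated by them, and for `2 p < dim V`
their smooth complete intersections of ample divisors. In the last case `V` need not be dominated by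
any variety in `R`, and `V` may have a large odd and middle cohomology.

## Proof

Conjecture D holds for the members of `R` (`U190/AN/Main`, from the library `R908`: a failure would define,
by the theorem of Kempf on optimal one-parameter subgroups, a canonical isotropic subspace in the
transcendental cohomology of one of the factors), hence for `V` in the codimension `p`; this gives 1 and
2 by the usual arguments with the intersection form (`U190/AN/Tate`). For 3, the operators on
`H^(2p)(V)` which factor, as algebraic correspondences, through members of `R` form an ideal of the
algebra of correspondences of degree zero on which the trace form has no kernel, by conjecture D for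
products of two members of `R`; so the ideal contains the identity of `H^(2p)(V)` (`U190/AN/Fact`), that
is, `x = ∑ φ (ψ x)` for all `x` in `H^(2p)(V)`, with algebraic correspondences `ψ` to and `φ` from
members of `R`. If `x` is a Tate class so are all the `ψ x`. The semisimplicity of the action of the
Galois group is not needed.
-/

set_option autoImplicit false

universe u v w

namespace Pool.Agent.Results.MP_0fca13_ag.GeneratedVarieties

open Pool.Agent.H914 Pool.Agent.U190.AP

/-- **Finite generation and injectivity, and the reduction of the Tate conjecture to products, for
varieties generated by products of varieties with irreducible primitive cohomology, and others.** -/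
theorem result {k : Type u} [Field k] {𝒱 : VarClass k} {ops : CycleOps 𝒱}
    (W : WeilCohomology.{u, v} ops) {Γ : Type w} [Group Γ] [TopologicalSpace Γ]
    (S : Γ → Symmetry W) (κ : Γ → W.K) (hS : IsGaloisAction S κ) (P 𝒴 : Set 𝒱.Obj)
    (hP : ∀ X ∈ P, IsBasic (Set.range S) X)
    (hK : ∀ Y ∈ 𝒴, IsKunneth W Y) (h𝒴 : ∀ Y, IsProductOf 𝒴 Y → HomEqNum W Y) :
    (∀ V p, p ≤ V.dim → GenBoth W P 𝒴 V p →
      FGIn W V p ∧ InjectiveIn W V p) ∧
    ((∀ Z, IsProductOf (P ∪ 𝒴) Z → ∀ p, TateIn S κ Z p) ↔
      ∀ V p, p ≤ V.dim → GenBoth W P 𝒴 V p → TateIn S κ V p) := by
  have hP' : ∀ X ∈ P, U190.AN.IsKunnethBlock (syms (Set.range S)) X := fun X hX => (hP X hX).block
  have hR : ∀ Z ∈ U190.AN.products P 𝒴, HomEqNum W Z := fun Z hZ =>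
    U190.AN.homEqNum_products (fun X hX => (hP' X hX).type) h𝒴 hZ
  simp only [generatedInBoth_iff, hS.tateIn_iff]
  refine ⟨fun V p hp hV => ?_, fun hT V p hp hV => ?_, fun h Z hZ p => ?_⟩
  · have h1 := U190.AN.homEqNumIn_of_generated hR hp (hV.both hp).2
    exact ⟨finitelyGeneratedIn_of hp (U190.AN.finitelyGeneratedIn_of_homEqNumIn hp h1),
      injectiveIn_of (U190.AN.injectiveIn_of_homEqNumIn hp h1)⟩
  · exact U190.AN.tateIn_of_generated
      (U190.AN.isStandardK hP' (fun Y hY => (hK Y hY).linear) h𝒴) hT hp (hV.both hp).1
      (hV.both hp).2
  · by_cases hp : p ≤ Z.dim
    · exact h Z p hp (U190.AN.GeneratedInBoth.self hZ p)
    · exact U190.AN.tateIn_of_lt _ (by omega)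

end Pool.Agent.Results.MP_0fca13_ag.GeneratedVarieties
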