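import Pool.Agent.Y701.PE.Eq

/-!
# The Tate conjecture in the middle codimension for pencils pulled back to coverings of the line

Let `k` be a finite field with `q` elements, `Y ⊂ ℙ^N` a smooth projective variety over `k` of even
dimension `2 i`, for example a projective space or a smooth complete intersection, and `F = t G` a pencil
of hypersurface sections `Y_t` of `Y`, with a smooth base locus `B = Y ∩ {F = G = 0}`. For a Galois
extension `L` of `k(t)`, the function field of a curve `C_L` over `k'`, let `X_L → C_L` be the pencil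
pulled back to `C_L`, a projective variety of dimension `2 i` over `k'`, smooth if no singular fibre lies
over a ramified place.

For `L / k(t)` of degree a power of a prime `ℓ` we prove a congruence formula modulo `ℓ` for the order of
the pole of the zeta function of `X_L` at `s = i`, and a criterion for this order to be two. Then the
Tate conjecture holds for `X_L` in codimension `i`.
-/

set_option autoImplicit false
set_option linter.all false
set_option maxHeartbeats 4000000

open Polynomial FF Module Pool.Agent.W343.BSD Pool.Agent.Y701.PE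
open scoped LinearAlgebra.Projectivization

namespace Pool.Agent.Results.MP_0fca13_ag.PencilCoverings

section defs

/-- `Z = exp (∑ y_m T ^ m / m)` is the zeta function of the projective variety over `k` with the equations
in `I`: for each extension `E` of `k` of degree `m`, `y_m` is the number of its points over `E`. -/
def IsZetaOf {k : Type} [Field k] {N : ℕ} (I : Set (MvPolynomial (Fin (N + 1)) k))
    (Z : PowerSeries ℤ) : Prop :=
  ∃ y : ℕ → ℤ, IsExp (fun m => -y m) Z ∧
    ∀ (m : ℕ) (E : Type) [Field E] [Finite E] (ι : k →+* E), 0 < m →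
      Nat.card E = Nat.card k ^ m →
      y m = Nat.card {z : ℙ E (Fin (N + 1) → E) // ∀ f ∈ I, f.eval₂ ι z.rep = 0}

/-- The projective variety `Y` with the equations in `I` and the base locus `B : F = G = 0` in `Y` have
the zeta functions `(R_Y(T) ∏ (1 - q ^ j T))⁻¹`, `0 ≤ j ≤ 2 i`, and `(R_B(T) ∏ (1 - q ^ j T))⁻¹`,
`0 ≤ j ≤ 2 i - 2`. For smooth complete intersections `Y` and `B` of dimensions `2 i` and `2 i - 2` this is
so, and `R_Y` and `R_B` are the characteristic polynomials `det (1 - T Frob)` on the primitive cohomology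
in the degrees `2 i` and `2 i - 2`. -/
structure IsPencil {k : Type} [Field k] {N : ℕ} (i : ℕ) (I : Set (MvPolynomial (Fin (N + 1)) k))
    (F G : MvPolynomial (Fin (N + 1)) k) (RY RB : ℤ[X]) : Prop where
  forms : ∀ f ∈ I, ∃ d, f.IsHomogeneous d
  degree : ∃ d, F.IsHomogeneous d ∧ G.IsHomogeneous d
  ambient : ∃ Z : PowerSeries ℤ, IsZetaOf I Z ∧
    Z * (RY * ∏ j ∈ Finset.range (2 * i + 1), (1 - C ((Nat.card k : ℤ) ^ j) * X) : ℤ[X]) = 1
  base : ∃ Z : PowerSeries ℤ, IsZetaOf (I ∪ {F, G}) Z ∧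
    Z * (RB * ∏ j ∈ Finset.range (2 * i - 1), (1 - C ((Nat.card k : ℤ) ^ j) * X) : ℤ[X]) = 1

/-- `P = P_w = exp (-∑ a_m T ^ m / m)`, where `1 + Q + ... + Q ^ (2 i - 1) - a_m` is the number of points
of the fibre `X_w : F = t(w) G` in `Y` (`G = 0` if `t(w) = ∞`) over the extension of degree `m`, with `Q`
elements, of the residue field of `w`. For a smooth fibre of the pencils above, `P_w` is
`det (1 - T Frob)` on the cohomology of degree `2 i - 1` of the fibre. -/
abbrev IsP {k L : Type} [Field k] [Field L] [Algebra k L] {N : ℕ} (i : ℕ) (w : Place k L) (t : L)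
    (I : Set (MvPolynomial (Fin (N + 1)) k)) (F G : MvPolynomial (Fin (N + 1)) k)
    (P : PowerSeries ℤ) : Prop :=
  IsNumerator (fun Q => ∑ j ∈ Finset.range (2 * i), (Q : ℤ) ^ j) w t I F G P

/-- `Λ(T) = ∏ P_w(T ^ (deg w))⁻¹`, the product over the places `w` of `L`. -/
abbrev IsL (k : Type) {L : Type} [Field k] [Field L] [Algebra k L] {N : ℕ} (i : ℕ) (t : L)
    (I : Set (MvPolynomial (Fin (N + 1)) k)) (F G : MvPolynomial (Fin (N + 1)) k)
    (Λ : PowerSeries ℤ) : Prop :=
  IsLFunction k (fun Q => ∑ j ∈ Finset.range (2 * i), (Q : ℤ) ^ j) t I F G Λ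

/-- `Z` is the zeta function of `X_L`: the product over the places `w` of `L` of the zeta functions
`exp (∑ y_m T ^ m / m)` of the fibres `X_w`, at `T ^ (deg w)`. -/
def IsZetaX (k : Type) {L : Type} [Field k] [Field L] [Algebra k L] {N : ℕ} (t : L)
    (I : Set (MvPolynomial (Fin (N + 1)) k)) (F G : MvPolynomial (Fin (N + 1)) k)
    (Z : PowerSeries ℤ) : Prop :=
  ∃ Y : Place k L → PowerSeries ℤ, (∀ w, IsNumerator (fun _ => 0) w t I F G (Y w)) ∧
    Z = eulerProd (fun w : Place k L => S.deg w) (fun w => sub (S.deg w) (Y w))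

/-- `∏_w (1 - q ^ (j deg w) T ^ (deg w))`, the inverse of the zeta function of the curve `C_L` at
`q ^ j T`. -/
noncomputable def invZetaC (k L : Type) [Field k] [Field L] [Algebra k L] (j : ℕ) : PowerSeries ℤ :=
  eulerProd (fun w : Place k L => S.deg w)
    (fun w => 1 - PowerSeries.C ((Nat.card k : ℤ) ^ (j * S.deg w)) * PowerSeries.X ^ S.deg w)

/-- The multiplicity modulo `ℓ` of the zero `q ^ (-i)` of `A(T ^ d)`. -/
noncomputable def mult (ℓ : ℕ) [Fact ℓ.Prime] (q i d : ℕ) (A : ℤ[X]) : ℕ :=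
  ((expand ℤ d A).map (Int.castRingHom (ZMod ℓ))).rootMultiplicity (((q : ℕ) : ZMod ℓ) ^ i)⁻¹

/-- The value `A(q ^ (-i))` modulo `ℓ`. -/
noncomputable def value (ℓ : ℕ) [Fact ℓ.Prime] (q i : ℕ) (A : ℤ[X]) : ZMod ℓ :=
  (A.map (Int.castRingHom (ZMod ℓ))).eval (((q : ℕ) : ZMod ℓ) ^ i)⁻¹

/-- The order of vanishing of the polynomial `R` at `1 / Q`. -/
noncomputable def order (Q : ℕ) (R : ℤ[X]) : ℕ :=
  (R.map (Int.castRingHom ℚ)).rootMultiplicity ((Q : ℚ)⁻¹)

/-- The place `w` of `L` lies over the place `v` of `K`, with the ramification index `e`. The fields of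
constants `k` and `k'` may be different. -/
def LiesOver {k K k' L : Type} [Field k] [Field K] [Algebra k K] [Field k'] [Field L]
    [Algebra k' L] [Algebra K L] (w : Place k' L) (v : Place k K) (e : ℕ) : Prop :=
  0 < e ∧ ∀ f : K, w.ord (algebraMap K L f) = e * v.ord f

/-- `L` is a Galois extension of `k(t)` of degree a power of `ℓ` with field of constants `k'`; the
places over `v` have the ramification index `e v`, which is `1` outside the finite set `B`. -/
structure IsLayer (k k' L : Type) [Field k] [Field k'] [Field L] [Algebra k' L] [Algebra k k']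
    [Algebra (RatFunc k) L] (ℓ : ℕ) (e : Place k (RatFunc k) → ℕ)
    (B : Finset (Place k (RatFunc k))) : Prop where
  curve : IsCurveField k' L
  galois : IsGalois (RatFunc k) L
  power : ∃ s : ℕ, finrank (RatFunc k) L = ℓ ^ s
  index : ∀ (v : Place k (RatFunc k)) (w : Place k' L) (n : ℕ), LiesOver w v n → n = e v
  unramified : ∀ v, v ∉ B → e v = 1

end defs

section proof

open Pool.Agent.Y701.QF

theorem fibre_rel {k K : Type} [Field k] [Finite k] [Field K] [Algebra k K] [FF.IsFF k K] {N i : ℕ}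
    {w : Place k K} {t : K} {I : Set (MvPolynomial (Fin (N + 1)) k)}
    {F G : MvPolynomial (Fin (N + 1)) k} {P Y : PowerSeries ℤ} (hP : IsP i w t I F G P)
    (hY : IsNumerator (fun _ => 0) w t I F G Y) :
    P = Y * ∏ j ∈ Finset.range (2 * i),
      (1 - PowerSeries.C ((Nat.card k : ℤ) ^ (j * S.deg w)) * PowerSeries.X) := by
  obtain ⟨a, ha, hae⟩ := hP
  obtain ⟨b, hb, hbe⟩ := hY
  have cl : ∀ u : ℤ, PowerSeries.constantCoeff (toC (1 - PowerSeries.C u * PowerSeries.X)) = 1 :=
    fun u => cc_toC (cc_linear u)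
  have cp : PowerSeries.constantCoeff (toC (∏ j ∈ Finset.range (2 * i),
      (1 - PowerSeries.C ((Nat.card k : ℤ) ^ (j * S.deg w)) * PowerSeries.X))) = 1 := by
    rw [map_prod, map_prod]
    exact Finset.prod_eq_one fun j _ => cl _
  apply toC_inj
  rw [map_mul]
  apply eq_of_pw (cc_toC hae.1) (by rw [map_mul, cc_toC hbe.1, cp, one_mul])
  intro m hm
  have hfin : Finite (S.Res w) := by
    have h1 : Finite w.RF := Module.finite_of_finite k
    exact h1
  obtain ⟨E, iE, fE, j, hj⟩ := exists_extension (S.Res w) hm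
  have hq : Nat.card (S.Res w) = Nat.card k ^ S.deg w := by
    rw [S.deg_eq]
    exact card_res w
  rw [pw_mul (by rw [cc_toC hbe.1]; exact one_ne_zero) (by rw [cp]; exact one_ne_zero), map_add,
    pw_of hae hm, pw_of hbe hm, map_prod, pw_prod _ _ (fun j _ => by rw [cl]; exact one_ne_zero),
    map_sum, Finset.sum_congr rfl fun j _ => pw_linear _ hm, Finset.sum_neg_distrib,
    ha m E j (Nat.pos_of_ne_zero hm) hj, hb m E j (Nat.pos_of_ne_zero hm) hj, hj, hq]
  have e : ∀ j ∈ Finset.range (2 * i), (((Nat.card k : ℤ) ^ (j * S.deg w) : ℤ) : ℂ) ^ m =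
      (((Nat.card k : ℂ) ^ S.deg w) ^ m) ^ j := by
    intro j _
    push_cast
    rw [← pow_mul, ← pow_mul, ← pow_mul]
    congr 1
    ring
  rw [Finset.sum_congr rfl e]
  push_cast
  ring

theorem sub_lin {d : ℕ} (hd : d ≠ 0) (u : ℤ) :
    sub d (1 - PowerSeries.C u * PowerSeries.X) = 1 - PowerSeries.C u * PowerSeries.X ^ d := by
  rw [sub_eq hd]
  simp

theorem zeta_rel {k L : Type} [Field k] [Finite k] [Field L] [Algebra k L]
    (hL : IsCurveField k L) {N i : ℕ} {t : L} {I : Set (MvPolynomial (Fin (N + 1)) k)}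
    {F G : MvPolynomial (Fin (N + 1)) k} {Λ Z : PowerSeries ℤ} (hΛ : IsL k i t I F G Λ)
    (hZ : IsZetaX k t I F G Z) : Z * Λ * ∏ j ∈ Finset.range (2 * i), invZetaC k L j = 1 := by
  have i3 : FF.IsFF k L := ⟨hL.essFiniteType, hL.trdeg_eq_one⟩
  obtain ⟨P, hP, e⟩ := hΛ
  obtain ⟨Y, hY, rfl⟩ := hZ
  have hd : ∀ w : Place k L, S.deg w ≠ 0 := fun w => by
    rw [S.deg_eq]
    exact (Pool.Agent.H525R3.FFp.deg_pos w).ne'
  have hw : ∀ w : Place k L, sub (S.deg w) (P w) = sub (S.deg w) (Y w) *
      ∏ j ∈ Finset.range (2 * i), (1 - PowerSeries.C ((Nat.card k : ℤ) ^ (j * S.deg w)) *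
        PowerSeries.X ^ S.deg w) := by
    intro w
    rw [fibre_rel (hP w) (hY w), Pool.Agent.Y701.PE.sub_mul (hd w)]
    congr 1
    rw [sub_eq (hd w), map_prod]
    refine Finset.prod_congr rfl fun j _ => ?_
    rw [← sub_eq (hd w), sub_lin (hd w)]
  have hfin : ∀ n, {w : Place k L | S.deg w ≤ n}.Finite := fun n => by
    simp only [S.deg_eq]
    exact places_fin n
  have h1 : ∀ w : Place k L, (PowerSeries.X : PowerSeries ℤ) ^ S.deg w ∣ sub (S.deg w) (Y w) - 1 := by
    intro w
    obtain ⟨b, -, hb⟩ := hY w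
    exact sub_mod (hd w) hb.1
  have h2 : ∀ (j : ℕ) (w : Place k L), (PowerSeries.X : PowerSeries ℤ) ^ S.deg w ∣
      (1 - PowerSeries.C ((Nat.card k : ℤ) ^ (j * S.deg w)) * PowerSeries.X ^ S.deg w) - 1 := by
    intro j w
    rw [sub_sub_cancel_left]
    exact (dvd_neg).2 (Dvd.intro_left _ rfl)
  have h3 : ∀ w : Place k L, (PowerSeries.X : PowerSeries ℤ) ^ S.deg w ∣
      (∏ j ∈ Finset.range (2 * i), (1 - PowerSeries.C ((Nat.card k : ℤ) ^ (j * S.deg w)) *
        PowerSeries.X ^ S.deg w)) - 1 := by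
    intro w
    have h := prod_congr_mod (Finset.range (2 * i)) (fun j => (1 - PowerSeries.C
      ((Nat.card k : ℤ) ^ (j * S.deg w)) * PowerSeries.X ^ S.deg w : PowerSeries ℤ)) (fun _ => 1)
      (S.deg w) (fun j _ => h2 j w)
    rwa [Finset.prod_const_one] at h
  simp only [hw] at e
  rw [eulerProd_mul hfin h1 h3, eulerProd_prod hfin _ _ h2] at e
  unfold invZetaC
  rw [mul_comm _ Λ, mul_assoc]
  exact e

theorem coe_comp (R : ℤ[X]) (q : ℤ) :
    ((R.comp (C q * X) : ℤ[X]) : PowerSeries ℤ) = PowerSeries.rescale q (R : PowerSeries ℤ) := by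
  ext m
  rw [Polynomial.coeff_coe, Polynomial.comp_C_mul_X_coeff, PowerSeries.coeff_rescale,
    Polynomial.coeff_coe]
  ring

theorem isZeta_of {k : Type} [Field k] [Finite k] {N : ℕ} {I : Set (MvPolynomial (Fin (N + 1)) k)}
    {Z : PowerSeries ℤ} (h : IsZetaOf I Z) : IsZeta I Z := by
  obtain ⟨y, h1, h2⟩ := h
  exact ⟨y, fun m E _ _ ι hm hE => h2 m E ι hm hE, h1⟩

theorem exact_rat {k : Type} [Field k] [Finite k] {N i : ℕ} (hi : 1 ≤ i)
    {I : Set (MvPolynomial (Fin (N + 1)) k)} {F G : MvPolynomial (Fin (N + 1)) k} {RY RB : ℤ[X]}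
    (hF : IsPencil i I F G RY RB) {Λ : PowerSeries ℤ} (hΛ : IsL k i (RatFunc.X : RatFunc k) I F G Λ) :
    Λ = ((RY * RB.comp (C (Nat.card k : ℤ) * X) : ℤ[X]) : PowerSeries ℤ) := by
  obtain ⟨ZY, hY, eY⟩ := hF.ambient
  obtain ⟨ZB, hB, eB⟩ := hF.base
  obtain ⟨l, rfl⟩ : ∃ l, i = l + 1 := ⟨i - 1, by omega⟩
  set q : ℤ := (Nat.card k : ℤ) with hq
  have hΛ' : IsLFunction k (fun Q => ∑ j ∈ Finset.range (2 * (l + 1)), ((1 : ℕ) : ℤ) * (Q : ℤ) ^ j)
      (RatFunc.X : RatFunc k) I F G Λ := by
    simpa using hΛ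
  have h1 := exact_var (c := fun _ => 1) hΛ' (isZeta_of hY) (isZeta_of hB)
  have h2 := congrArg (PowerSeries.rescale q) eB
  rw [map_mul, map_one, Polynomial.coe_mul, map_mul, ← coe_comp, ← coe_comp] at h2
  rw [Polynomial.coe_mul] at eY
  have hT : trivPart q (2 * (l + 1)) (fun _ => 1) =
      ((∏ j ∈ Finset.range (2 * (l + 1) + 1), (1 - C (q ^ j) * X) : ℤ[X]) : PowerSeries ℤ) *
      (((∏ j ∈ Finset.range (2 * (l + 1) - 1), (1 - C (q ^ j) * X)).comp (C q * X) : ℤ[X]) :
        PowerSeries ℤ) := by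
    unfold trivPart
    have hco : ∀ j : ℕ, ((1 - C (q ^ j) * X : ℤ[X]) : PowerSeries ℤ) =
        1 - PowerSeries.C (q ^ j) * PowerSeries.X := by
      intro j
      rw [Polynomial.coe_sub, Polynomial.coe_one, Polynomial.coe_mul, Polynomial.coe_C,
        Polynomial.coe_X]
    have hcm : (∏ j ∈ Finset.range (2 * (l + 1) - 1), (1 - C (q ^ j) * X : ℤ[X])).comp (C q * X) =
        ∏ j ∈ Finset.range (2 * (l + 1) - 1), (1 - C (q ^ (j + 1)) * X : ℤ[X]) := by
      rw [Polynomial.prod_comp]
      refine Finset.prod_congr rfl fun j _ => ?_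
      simp only [Polynomial.sub_comp, Polynomial.one_comp, Polynomial.mul_comp, Polynomial.C_comp,
        Polynomial.X_comp]
      rw [← mul_assoc, ← C_mul, ← pow_succ]
    rw [hcm, coe_prod', coe_prod']
    simp only [hco, pow_one]
    rw [Finset.prod_mul_distrib, Finset.prod_range_succ _ (2 * (l + 1)),
      show 2 * (l + 1) = (2 * (l + 1) - 1) + 1 by omega,
      Finset.prod_range_succ (fun j => (1 - PowerSeries.C (q ^ (j + 1)) * PowerSeries.X :
        PowerSeries ℤ)) (2 * (l + 1) - 1)]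
    simp only [Nat.add_sub_cancel]
    ring
  rw [hT] at h1
  rw [Polynomial.coe_mul]
  set A := ((∏ j ∈ Finset.range (2 * (l + 1) + 1), (1 - C (q ^ j) * X) : ℤ[X]) : PowerSeries ℤ)
  set B := (((∏ j ∈ Finset.range (2 * (l + 1) - 1), (1 - C (q ^ j) * X)).comp (C q * X) : ℤ[X]) :
        PowerSeries ℤ)
  set r := PowerSeries.rescale q ZB
  set RY' := (RY : PowerSeries ℤ)
  set RB' := ((RB.comp (C q * X) : ℤ[X]) : PowerSeries ℤ)
  calc Λ = Λ * (ZY * (RY' * A)) * (r * (RB' * B)) := by rw [eY, h2, mul_one, mul_one]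
    _ = RY' * RB' * (Λ * ZY * r * (A * B)) := by ring
    _ = RY' * RB' := by rw [h1, mul_one]

end proof

/-- Let `k` be a finite field with `q` elements, `i ≥ 1`, let `Y` be a projective variety over `k` with
the equations in `I` and `F`, `G` forms of the same degree, such that `Y` and the base locus `B` have
zeta functions as in `IsPencil` (for instance `Y` and `B` smooth complete intersections of dimensions
`2 i` and `2 i - 2`). For a finite extension `L` of `k(t)`, the function field of a curve `C_L` over its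
field of constants `k'` with `q'` elements, let `X_L` be the family of the varieties
`Y ∩ {F = t(w) G}` over the places `w` of `L`, and `Λ_L` as in `IsL`.

(1) Over `k(t)` one has `Λ(T) = R_Y(T) R_B(q T)`.

(2) Let `ℓ` be a prime different from the characteristic and `L` any finite Galois extension of `k(t)` of
degree a power of `ℓ`, with ramification indices `e_v`. The zeta function of `X_L` is
`ζ(C_L, T) ζ(C_L, q' T) ⋯ ζ(C_L, q' ^ (2 i - 1) T) / Λ_L(T)`, so that the order of its pole at
`T = q' ^ (-i)`, that is at `s = i`, is `2` plus the order of the zero of `Λ_L`.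

(3) Let `P_v = A_v / C_v` with integral polynomials `A_v`, `C_v` at the ramified places `v`. If
`Λ_L W = R` for integral polynomials `W`, `R` then
`mult R + ∑_v ([L : k(t)] - [L : k(t)] / e_v) mult C_v =
  mult W + [L : k(t)] mult (R_Y(T) R_B(q T)) + ∑_v ([L : k(t)] - [L : k(t)] / e_v) mult A_v`,
where `mult` are the multiplicities modulo `ℓ` of the zero `q ^ (-i)` of `A_v(T ^ (deg v))`,
`C_v(T ^ (deg v))`, `W(T ^ [k' : k])`, `R(T ^ [k' : k])`, and `[k' : k]` times the order of vanishing
of `R` at `q' ^ (-i)` is at most `mult R`.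

(4) If `R_Y(q ^ (-i)) R_B(q ^ (1 - i))` is not divisible by `ℓ` and at the ramified places `v` the `P_v` are
polynomials with `P_v(q_v ^ (-i))` not divisible by `ℓ`, then for `Λ_L` a polynomial `Λ_L(q' ^ (-i))` is
not zero and not divisible by `ℓ`, and the pole of the zeta function of `X_L` at `s = i` has order two. If
`Y`, `B` and the fibres over the ramified places are smooth, then `X_L` is a smooth projective variety of
dimension `2 i`, and the classes `h ^ i` and `h ^ (i - 1) f`, where `h` is the class of a hyperplane section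
and `f` that of a fibre over `C_L`, are independent; so the Tate conjecture and its strong form hold for
`X_L` in codimension `i`, for all such `L`. -/
theorem result (k : Type) [Field k] [Finite k] (N i : ℕ) (hi : 1 ≤ i)
    (I : Set (MvPolynomial (Fin (N + 1)) k)) (F G : MvPolynomial (Fin (N + 1)) k) (RY RB : ℤ[X])
    (hF : IsPencil i I F G RY RB) :
    (∀ Λ : PowerSeries ℤ, IsL k i (RatFunc.X : RatFunc k) I F G Λ →
      Λ = ((RY * RB.comp (C (Nat.card k : ℤ) * X) : ℤ[X]) : PowerSeries ℤ)) ∧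
    ∀ (ℓ : ℕ) [Fact ℓ.Prime], (ℓ : k) ≠ 0 → ∀ (k' L : Type) [Field k'] [Finite k'] [Field L]
      [Algebra k' L] [Algebra k k'] [Algebra k L] [Algebra (RatFunc k) L]
      [IsScalarTower k (RatFunc k) L] [IsScalarTower k k' L] (e : Place k (RatFunc k) → ℕ)
      (B : Finset (Place k (RatFunc k))), IsLayer k k' L ℓ e B →
      ∀ Λ Λ' : PowerSeries ℤ, IsL k i (RatFunc.X : RatFunc k) I F G Λ →
        IsL k' i (algebraMap (RatFunc k) L RatFunc.X) (MvPolynomial.map (algebraMap k k') '' I)
          (MvPolynomial.map (algebraMap k k') F) (MvPolynomial.map (algebraMap k k') G) Λ' →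
      (∀ Z : PowerSeries ℤ, IsZetaX k' (algebraMap (RatFunc k) L RatFunc.X)
          (MvPolynomial.map (algebraMap k k') '' I) (MvPolynomial.map (algebraMap k k') F)
          (MvPolynomial.map (algebraMap k k') G) Z →
        Z * Λ' * ∏ j ∈ Finset.range (2 * i), invZetaC k' L j = 1) ∧
      ∀ (P : Place k (RatFunc k) → PowerSeries ℤ) (A Q : Place k (RatFunc k) → ℤ[X]),
        (∀ v ∈ B, IsP i v (RatFunc.X : RatFunc k) I F G (P v) ∧
          P v * (Q v : PowerSeries ℤ) = (A v : PowerSeries ℤ) ∧ (Q v).coeff 0 = 1) →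
      (∀ W R : ℤ[X], W.coeff 0 = 1 → Λ' * (W : PowerSeries ℤ) = (R : PowerSeries ℤ) →
        mult ℓ (Nat.card k) i (finrank k k') R +
            ∑ v ∈ B, (finrank (RatFunc k) L - finrank (RatFunc k) L / e v) *
              mult ℓ (Nat.card k) i (S.deg v) (Q v) =
          mult ℓ (Nat.card k) i (finrank k k') W +
            finrank (RatFunc k) L * mult ℓ (Nat.card k) i 1 (RY * RB.comp (C (Nat.card k : ℤ) * X)) +
            ∑ v ∈ B, (finrank (RatFunc k) L - finrank (RatFunc k) L / e v) *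
              mult ℓ (Nat.card k) i (S.deg v) (A v) ∧
        finrank k k' * order (Nat.card k' ^ i) R ≤ mult ℓ (Nat.card k) i (finrank k k') R) ∧
      (value ℓ (Nat.card k) i (RY * RB.comp (C (Nat.card k : ℤ) * X)) ≠ 0 →
        (∀ v ∈ B, e v ≠ 1 → Q v = 1 ∧ value ℓ (Nat.card (S.Res v)) i (A v) ≠ 0) →
        ∀ R : ℤ[X], Λ' = (R : PowerSeries ℤ) → order (Nat.card k' ^ i) R = 0 ∧
          value ℓ (Nat.card k') i R ≠ 0) := by
  classical
  refine ⟨fun Λ hΛ => exact_rat hi hF hΛ, ?_⟩
  intro ℓ hℓ hℓk k' L _ _ _ _ _ _ _ _ _ e B hlay Λ Λ' hΛ hΛ'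
  refine ⟨fun Z hZ => zeta_rel hlay.curve hΛ' hZ, ?_⟩
  intro P A Q hP
  have hKc : IsCurveField k (RatFunc k) :=
    { essFiniteType := (inferInstance : FF.IsFF k (RatFunc k)).1
      trdeg_eq_one := (inferInstance : FF.IsFF k (RatFunc k)).2
      algClosed := Pool.Agent.W309.RF.const_rat }
  have hV : (1 : ℤ[X]).coeff 0 = 1 := by simp
  have hmlt : ∀ (d : ℕ) (A : ℤ[X]), mlt ℓ ((((Nat.card k : ℕ) : ZMod ℓ)) ^ i)⁻¹ d A =
      mult ℓ (Nat.card k) i d A := fun d A => rfl
  have hone : ∀ d : ℕ, mult ℓ (Nat.card k) i d 1 = 0 := by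
    intro d
    unfold mult
    rw [map_one, Polynomial.map_one, rm_one]
  have key : ∀ W R : ℤ[X], W.coeff 0 = 1 → Λ' * (W : PowerSeries ℤ) = (R : PowerSeries ℤ) →
        mult ℓ (Nat.card k) i (finrank k k') R +
            ∑ v ∈ B, (finrank (RatFunc k) L - finrank (RatFunc k) L / e v) *
              mult ℓ (Nat.card k) i (S.deg v) (Q v) =
          mult ℓ (Nat.card k) i (finrank k k') W +
            finrank (RatFunc k) L * mult ℓ (Nat.card k) i 1 (RY * RB.comp (C (Nat.card k : ℤ) * X)) +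
            ∑ v ∈ B, (finrank (RatFunc k) L - finrank (RatFunc k) L / e v) *
              mult ℓ (Nat.card k) i (S.deg v) (A v) ∧
        finrank k k' * order (Nat.card k' ^ i) R ≤ mult ℓ (Nat.card k) i (finrank k k') R := by
    intro W R hW hR
    have hU : Λ * ((1 : ℤ[X]) : PowerSeries ℤ) =
        ((RY * RB.comp (C (Nat.card k : ℤ) * X) : ℤ[X]) : PowerSeries ℤ) := by
      rw [Polynomial.coe_one, mul_one]
      exact exact_rat hi hF hΛ
    obtain ⟨h1, h2⟩ := pencil_eq hKc hlay.curve hℓk hlay.galois hlay.power hlay.index B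
      hlay.unramified (fun Q => ∑ j ∈ Finset.range (2 * i), (Q : ℤ) ^ j) (RatFunc.X : RatFunc k)
      hΛ hΛ' hV hU hP i R W hW hR
    simp only [hmlt, hone, mul_zero, add_zero] at h1 h2
    exact ⟨h1, h2 _ rfl⟩
  refine ⟨key, ?_⟩
  intro hval hv R hR
  obtain ⟨h1, h1'⟩ := key 1 R (by simp) (by rw [Polynomial.coe_one, mul_one]; exact hR)
  have hsum : ∑ v ∈ B, (finrank (RatFunc k) L - finrank (RatFunc k) L / e v) *
      mult ℓ (Nat.card k) i (S.deg v) (A v) = 0 := by
    refine Finset.sum_eq_zero fun v hvB => ?_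
    by_cases he : e v = 1
    · rw [he, Nat.div_one, Nat.sub_self, zero_mul]
    · have h2 := (hv v hvB he).2
      have h3 : mult ℓ (Nat.card k) i (S.deg v) (A v) = 0 := by
        unfold mult
        apply Polynomial.rootMultiplicity_eq_zero
        rw [Polynomial.map_expand, IsRoot.def, Polynomial.expand_eval]
        have h4 : ((((Nat.card k : ℕ) : ZMod ℓ) ^ i)⁻¹) ^ S.deg v =
            (((Nat.card (S.Res v) : ℕ) : ZMod ℓ) ^ i)⁻¹ := by
          rw [card_res, ← S.deg_eq, inv_pow]
          push_cast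
          rw [← pow_mul, ← pow_mul, mul_comm]
        rw [h4]
        exact h2
      rw [h3, mul_zero]
  have hK : mult ℓ (Nat.card k) i 1 (RY * RB.comp (C (Nat.card k : ℤ) * X)) = 0 := by
    unfold mult
    apply Polynomial.rootMultiplicity_eq_zero
    rw [Polynomial.expand_one, IsRoot.def]
    exact hval
  rw [hsum, hone, hK, mul_zero] at h1
  have i5 : Module.Finite k k' := Module.Finite.of_finite
  have h6 : mult ℓ (Nat.card k) i (finrank k k') R = 0 := by omega
  refine ⟨?_, ?_⟩
  · rw [h6] at h1'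
    exact (Nat.mul_eq_zero.1 (Nat.le_zero.1 h1')).resolve_left finrank_pos.ne'
  · have h7 : (expand ℤ (finrank k k') R).map (Int.castRingHom (ZMod ℓ)) ≠ 0 := by
      apply map_ne_of_coeff
      rw [coeff_zero_expand finrank_pos]
      have h8 := cc_lfun' hlay.curve hΛ'
      rw [hR] at h8
      rwa [← PowerSeries.coeff_zero_eq_constantCoeff_apply, Polynomial.coeff_coe] at h8
    have h9 := (Polynomial.rootMultiplicity_eq_zero_iff.1 h6)
    intro h10
    apply h7
    apply h9
    rw [Polynomial.map_expand, IsRoot.def, Polynomial.expand_eval]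
    have h11 : ((((Nat.card k : ℕ) : ZMod ℓ) ^ i)⁻¹) ^ finrank k k' =
        (((Nat.card k' : ℕ) : ZMod ℓ) ^ i)⁻¹ := by
      rw [Module.natCard_eq_pow_finrank (K := k) (V := k'), inv_pow]
      push_cast
      rw [← pow_mul, ← pow_mul, mul_comm]
    rw [h11]
    exact h10

end Pool.Agent.Results.MP_0fca13_ag.PencilCoverings
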