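import Pool.Agent.U434.TG.Core

/-!
# Tate classes on all powers of abelian varieties, from places of potentially good reduction

Let `A` be an abelian variety over a finitely generated field of any characteristic, `ℓ` a prime
number different from the characteristic, `V = V_ℓ(A)` the rational Tate module with the action `ρ`
of the Galois group `Γ`, `χ` the cyclotomic character and `ω` the Weil pairing of a polarization; `K` is
the algebraic closure of `ℚ_ℓ` and `X = K ⊗ V`. By theorems of Zarhin, Mori and Faltings `V` is
semisimple, also over finite extensions (`hsemisimple`), and all Tate classes of degree two are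
combinations of classes of divisors. So `X` is the sum of strongly irreducible subspaces `E i` (minimal
nonzero subspaces stable under a subgroup of finite index). If `End(A) = ℤ` over the algebraic closure
there is one, `E = X`.

The hypothesis: for every `E i` of dimension at least two one of the following is true.

* (`HasFiniteOrderPlace`) There is an element `γ` of `Γ` which acts with FINITE ORDER (an element of
  the inertia group at a place where `A` has potentially good reduction, or more generally any element of
  finite order on `V`), preserves the `E j`, and whose eigenvalues on `E i` split in an isolated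
  way: they are divided into two nonempty sets such that for `α` in the first and `β` in the second set
  `α` or `β` is simple, `β / α` is not a quotient of another pair of eigenvalues on `E i` (except for
  the dual pair, if `ω` is not zero on `E i` and the two sets are self-dual), and geometric
  progressions of length three with the quotient `β / α` in the set of the eigenvalues on any `E j` are
  self-dual, with simple outer terms. Some diagonalizable element (a Frobenius element) has two
  eigenvalues on `E i` whose quotient is not a root of unity.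
* (`HasLocalOperators`) The condition of the starting result `MP_7b53ad_ag.MixedPlaces`, on the
  operators built from unipotent elements of inertia groups (bad semistable reduction, any toric
  rank) and from the slopes of Frobenius elements.

Different `E i` can use different places, of different kinds.

Examples. Let `E = X`. The eigenvalues of `γ` are `1` with multiplicity `2 g - 2` and `ζ`, `ζ⁻¹`, where `ζ`
has order at least four (a cusp with a tail of potentially good reduction). Or the eigenvalues of `γ`
are `1` with any multiplicity (which may be zero) and simple eigenvalues `ζ ^ s`, `ζ ^ (-s)` for `s` in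
a set of positive integers, one of which is more than three times larger than the others, while the
order of `ζ` is more than five times larger. If `A` is of type IV (the `E i` are not self-dual) then `γ`
can act on `E i` as a complex reflection of order at least three: the eigenvalues are `1` with any
multiplicity and one simple eigenvalue.

The conclusion: if there are no self-dual lines and non-self-dual strongly irreducible subspaces are not
isomorphic to proper twists of each other (for types I and II there are no such lines and subspaces)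
then all Tate classes on all powers of `A`, in all degrees, are combinations of products of Tate classes
of degree two (divisor classes) and of Weil classes; and of products of Tate classes of degree
two only, if there are no Weil families, for instance if all `E i` are self-dual (types I and II). In the
last case **the Tate conjecture holds for all powers of `A`, in all codimensions**.

There is no condition on the dimension of `A`, none from Hodge theory and none on the other places; the
base field can be a function field over a finite field, and `A` can have potentially good reduction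
everywhere.
-/

set_option autoImplicit false

namespace Pool.Agent.Results.MP_0fca13_ag.PotentiallyGoodPlaces

open Module TensorProduct Pool.Agent.Y126.Notions Pool.Agent.R855.MT Pool.Agent.U434.TG

noncomputable section

open Pool.Agent.H204R3.SP Pool.Agent.H204R3.GP Pool.Agent.W522.U Pool.Agent.TH118.CR
  Pool.Agent.TH118.IS

theorem result (ℓ : ℕ) [Fact ℓ.Prime] {V Γ : Type} [AddCommGroup V] [Module ℚ_[ℓ] V]
    [FiniteDimensional ℚ_[ℓ] V] [Group Γ] (ρ : Representation ℚ_[ℓ] Γ V) (χ : Γ →* ℚ_[ℓ])
    (ω : V →ₗ[ℚ_[ℓ]] V →ₗ[ℚ_[ℓ]] ℚ_[ℓ]) (halt : ∀ v, ω v v = 0)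
    (hnondeg : ∀ u, (∀ v, ω v u = 0) → u = 0)
    (hω : ∀ s u v, ω (ρ s u) (ρ s v) = χ s * ω u v)
    (hsemisimple : PotentiallySemisimple ρ) {I : Type}
    (E : I → Submodule (AlgebraicClosure ℚ_[ℓ]) (AlgebraicClosure ℚ_[ℓ] ⊗[ℚ_[ℓ]] V))
    (hE : ∀ i, StronglyIrreducible (extend (AlgebraicClosure ℚ_[ℓ]) ρ) (E i))
    (hsum : ⨆ i, E i = ⊤)
    (hplaces : ∀ i, 2 ≤ finrank (AlgebraicClosure ℚ_[ℓ]) (E i) →
      HasFiniteOrderPlace (extend (AlgebraicClosure ℚ_[ℓ]) ρ)
        ((algebraMap ℚ_[ℓ] (AlgebraicClosure ℚ_[ℓ]) : ℚ_[ℓ] →* _).comp χ)
        (LinearMap.BilinForm.baseChange (AlgebraicClosure ℚ_[ℓ]) ω) E i ∨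
      HasLocalOperators (extend (AlgebraicClosure ℚ_[ℓ]) ρ)
        ((algebraMap ℚ_[ℓ] (AlgebraicClosure ℚ_[ℓ]) : ℚ_[ℓ] →* _).comp χ) (E i))
    (hlines : NoSelfDualLines (extend (AlgebraicClosure ℚ_[ℓ]) ρ)
      ((algebraMap ℚ_[ℓ] (AlgebraicClosure ℚ_[ℓ]) : ℚ_[ℓ] →* _).comp χ))
    (htwists : NoProperTwists (extend (AlgebraicClosure ℚ_[ℓ]) ρ)
      ((algebraMap ℚ_[ℓ] (AlgebraicClosure ℚ_[ℓ]) : ℚ_[ℓ] →* _).comp χ)) :
    GeneratedByWeilClasses (AlgebraicClosure ℚ_[ℓ]) ρ χ ω ∧
    ((∀ (Q : Type) [Fintype Q] [Nonempty Q]
      (L : Q → Submodule (AlgebraicClosure ℚ_[ℓ]) (AlgebraicClosure ℚ_[ℓ] ⊗[ℚ_[ℓ]] V)),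
      ¬IsWeilFamily (extend (AlgebraicClosure ℚ_[ℓ]) ρ)
        ((algebraMap ℚ_[ℓ] (AlgebraicClosure ℚ_[ℓ]) : ℚ_[ℓ] →* _).comp χ) L) →
      GeneratedInDegreeTwo ρ χ) := by
  have hl1 : ∀ u, (∀ v, bcb (AlgebraicClosure ℚ_[ℓ]) ω u v = 0) → u = 0 := fun u hu =>
    bcb_nondeg_left ω hnondeg (left_nondeg ω halt hnondeg) u hu
  have hinv := bcb_inv (Ω := AlgebraicClosure ℚ_[ℓ]) ρ χ ω hω
  have halt' := Pool.Agent.TH118.CU.bcb_alt (Ω := AlgebraicClosure ℚ_[ℓ]) ω halt
  have hpr : HasProj (bcr ρ (AlgebraicClosure ℚ_[ℓ])) := hasProj_bcr ρ _ hsemisimple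
  refine Pool.Agent.Y126.Glue.conclusion ℓ ρ χ ω halt hnondeg hω hsemisimple ?_ hlines htwists
  intro U hU h2
  obtain ⟨i, hi⟩ := exists_iso' hpr ⟨hE, hsum⟩ hU
  have hd : 2 ≤ finrank (AlgebraicClosure ℚ_[ℓ]) (E i) := by
    obtain ⟨Δ, hΔ, T, hTU, h0, hT⟩ := hi
    obtain ⟨e, -⟩ := tw_equiv hU (hE i) hΔ hTU h0 hT
    rwa [← e.finrank_eq]
  obtain ⟨e, he, he2, h1⟩ : ∃ e ∈ lieT (bcr ρ (AlgebraicClosure ℚ_[ℓ]))
      (bcc χ (AlgebraicClosure ℚ_[ℓ])), e * e = 0 ∧
        finrank (AlgebraicClosure ℚ_[ℓ]) ((E i).map e) = 1 := by
    rcases hplaces i hd with h | h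
    · have h' : HasFiniteOrderPlace (bcr ρ (AlgebraicClosure ℚ_[ℓ]))
          (bcc χ (AlgebraicClosure ℚ_[ℓ])) (bcb (AlgebraicClosure ℚ_[ℓ]) ω) E i := h
      exact one_of_finite (bcb (AlgebraicClosure ℚ_[ℓ]) ω) halt' hl1 hinv hpr hE hsum i h'
    · exact one_of_local (bcb _ ω) hl1 hinv hpr (hE i) h
  exact ⟨e, he, he2, (rank_transfer (bcb _ ω) hl1 hinv hpr hU (hE i) hi he).symm.trans h1⟩

end

end Pool.Agent.Results.MP_0fca13_ag.PotentiallyGoodPlaces
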